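import Mathlib

/-! Chessboard estimate for six-letter words (MP_e188f1_nt, module CHB), general part. -/

set_option autoImplicit false

namespace Pool.Agent.Helper42.HY

open Finset

variable {G ι α β : Type}

open Classical in
theorem cnt (P : Finset α) (Q : Finset β) (f : α → G) (h : β → G) (X : Finset G)
    (hX : ∀ p ∈ P, f p ∈ X) :
    ((P ×ˢ Q).filter (fun y => f y.1 = h y.2)).card
      = ∑ x ∈ X, (P.filter (fun p => f p = x)).card * (Q.filter (fun q => h q = x)).card := by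
  rw [Finset.card_eq_sum_card_fiberwise (f := fun y : α × β => f y.1) (t := X)]
  · refine Finset.sum_congr rfl fun x _ => ?_
    rw [← Finset.card_product]
    congr 1
    ext y
    simp only [Finset.mem_filter, Finset.mem_product]
    constructor
    · rintro ⟨⟨⟨h1, h2⟩, h3⟩, h4⟩
      exact ⟨⟨h1, h4⟩, h2, h3.symm.trans h4⟩
    · rintro ⟨⟨h1, h2⟩, h3, h4⟩
      exact ⟨⟨⟨h1, h3⟩, h2.trans h4.symm⟩, h2⟩
  · intro y hy
    have hy' := Finset.mem_filter.1 (Finset.mem_coe.1 hy)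
    exact Finset.mem_coe.2 (hX _ (Finset.mem_product.1 hy'.1).1)

open Classical in
theorem cs (P : Finset α) (Q : Finset β) (f : α → G) (h : β → G) :
    ((P ×ˢ Q).filter (fun y => f y.1 = h y.2)).card ^ 2
      ≤ ((P ×ˢ P).filter (fun y => f y.1 = f y.2)).card
        * ((Q ×ˢ Q).filter (fun y => h y.1 = h y.2)).card := by
  have hP : ∀ p ∈ P, f p ∈ P.image f ∪ Q.image h := fun p hp =>
    Finset.mem_union_left _ (Finset.mem_image_of_mem _ hp)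
  have hQ : ∀ q ∈ Q, h q ∈ P.image f ∪ Q.image h := fun q hq =>
    Finset.mem_union_right _ (Finset.mem_image_of_mem _ hq)
  rw [cnt P Q f h _ hP, cnt P P f f _ hP, cnt Q Q h h _ hQ]
  have := Finset.sum_mul_sq_le_sq_mul_sq (P.image f ∪ Q.image h)
    (fun x => (P.filter (fun p => f p = x)).card) (fun x => (Q.filter (fun q => h q = x)).card)
  simp only [sq] at this ⊢
  exact this

/-- reversal of a triple -/
def rv (t : ι × ι × ι) : ι × ι × ι := (t.2.2, t.2.1, t.1)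

open Classical in
theorem rev2 (s : Finset ι) (R : ι × ι × ι → ι × ι × ι → Prop) :
    (((s ×ˢ s ×ˢ s) ×ˢ (s ×ˢ s ×ˢ s)).filter (fun y => R y.1 (rv y.2))).card
      = (((s ×ˢ s ×ˢ s) ×ˢ (s ×ˢ s ×ˢ s)).filter (fun y => R y.1 y.2)).card := by
  refine Finset.card_nbij' (fun y => (y.1, rv y.2)) (fun y => (y.1, rv y.2)) ?_ ?_ ?_ ?_
  · intro y hy
    have hy' := Finset.mem_filter.1 (Finset.mem_coe.1 hy)
    simp only [Finset.mem_product] at hy'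
    refine Finset.mem_coe.2 (Finset.mem_filter.2 ⟨?_, hy'.2⟩)
    simp only [Finset.mem_product]
    exact ⟨hy'.1.1, hy'.1.2.2.2, hy'.1.2.2.1, hy'.1.2.1⟩
  · intro y hy
    have hy' := Finset.mem_filter.1 (Finset.mem_coe.1 hy)
    simp only [Finset.mem_product] at hy'
    refine Finset.mem_coe.2 (Finset.mem_filter.2 ⟨?_, hy'.2⟩)
    simp only [Finset.mem_product]
    exact ⟨hy'.1.1, hy'.1.2.2.2, hy'.1.2.2.1, hy'.1.2.1⟩
  · intro y _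
    rfl
  · intro y _
    rfl

open Classical in
theorem rev1 (s : Finset ι) (R : ι × ι × ι → ι × ι × ι → Prop) :
    (((s ×ˢ s ×ˢ s) ×ˢ (s ×ˢ s ×ˢ s)).filter (fun y => R (rv y.1) y.2)).card
      = (((s ×ˢ s ×ˢ s) ×ˢ (s ×ˢ s ×ˢ s)).filter (fun y => R y.1 y.2)).card := by
  refine Finset.card_nbij' (fun y => (rv y.1, y.2)) (fun y => (rv y.1, y.2)) ?_ ?_ ?_ ?_
  · intro y hy
    have hy' := Finset.mem_filter.1 (Finset.mem_coe.1 hy)
    simp only [Finset.mem_product] at hy'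
    refine Finset.mem_coe.2 (Finset.mem_filter.2 ⟨?_, hy'.2⟩)
    simp only [Finset.mem_product]
    exact ⟨⟨hy'.1.1.2.2, hy'.1.1.2.1, hy'.1.1.1⟩, hy'.1.2⟩
  · intro y hy
    have hy' := Finset.mem_filter.1 (Finset.mem_coe.1 hy)
    simp only [Finset.mem_product] at hy'
    refine Finset.mem_coe.2 (Finset.mem_filter.2 ⟨?_, hy'.2⟩)
    simp only [Finset.mem_product]
    exact ⟨⟨hy'.1.1.2.2, hy'.1.1.2.1, hy'.1.1.1⟩, hy'.1.2⟩
  · intro y _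
    rfl
  · intro y _
    rfl

open Classical in
/-- the number of solutions -/
noncomputable def F6 [Group G] (s : Finset ι) (z : ι → G) (g : Fin 6 → G) : ℕ :=
  ((Fintype.piFinset fun _ : Fin 6 => s).filter fun i : Fin 6 → ι =>
    (z (i 0))⁻¹ * g 0 * z (i 1) * g 1 * (z (i 2))⁻¹ * g 2 * z (i 3) * g 3 * (z (i 4))⁻¹ * g 4 * z (i 5) * g 5 = 1).card

open Classical in
theorem F6_eq [Group G] (s : Finset ι) (z : ι → G) (g : Fin 6 → G) :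
    F6 s z g = (((s ×ˢ s ×ˢ s) ×ˢ (s ×ˢ s ×ˢ s)).filter
      (fun y : (ι × ι × ι) × (ι × ι × ι) => (z y.1.1)⁻¹ * g 0 * z y.1.2.1 * g 1
        * (z y.1.2.2)⁻¹ * g 2 * z y.2.1 * g 3 * (z y.2.2.1)⁻¹ * g 4 * z y.2.2.2 * g 5 = 1)).card := by
  unfold F6
  refine Finset.card_nbij' (fun i => ((i 0, i 1, i 2), (i 3, i 4, i 5)))
    (fun y => ![y.1.1, y.1.2.1, y.1.2.2, y.2.1, y.2.2.1, y.2.2.2]) ?_ ?_ ?_ ?_
  · intro i hi
    have hi' := Finset.mem_filter.1 (Finset.mem_coe.1 hi)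
    rw [Fintype.mem_piFinset] at hi'
    refine Finset.mem_coe.2 (Finset.mem_filter.2 ⟨?_, hi'.2⟩)
    simp only [Finset.mem_product]
    exact ⟨⟨hi'.1 0, hi'.1 1, hi'.1 2⟩, hi'.1 3, hi'.1 4, hi'.1 5⟩
  · intro y hy
    have hy' := Finset.mem_filter.1 (Finset.mem_coe.1 hy)
    simp only [Finset.mem_product] at hy'
    refine Finset.mem_coe.2 (Finset.mem_filter.2 ⟨?_, hy'.2⟩)
    rw [Fintype.mem_piFinset]
    intro k
    fin_cases k
    · exact hy'.1.1.1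
    · exact hy'.1.1.2.1
    · exact hy'.1.1.2.2
    · exact hy'.1.2.1
    · exact hy'.1.2.2.1
    · exact hy'.1.2.2.2
  · intro i _
    funext k
    fin_cases k <;> rfl
  · intro y _
    rfl

theorem F6_cs [Group G] (s : Finset ι) (z : ι → G) (g0 g1 g2 g3 g4 g5 : G) :
    F6 s z ![g0, g1, g2, g3, g4, g5] ^ 2
      ≤ F6 s z ![g0, g1, 1, g1⁻¹, g0⁻¹, 1] * F6 s z ![g4⁻¹, g3⁻¹, 1, g3, g4, 1] := by
  classical
  obtain ⟨f, hf⟩ : ∃ f : ι × ι × ι → G, ∀ p, f p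
      = (z p.1)⁻¹ * g0 * z p.2.1 * g1 * (z p.2.2)⁻¹ := ⟨_, fun _ => rfl⟩
  obtain ⟨h, hh⟩ : ∃ h : ι × ι × ι → G, ∀ q, h q
      = (g2 * z q.1 * g3 * (z q.2.1)⁻¹ * g4 * z q.2.2 * g5)⁻¹ := ⟨_, fun _ => rfl⟩
  have e0 : F6 s z ![g0, g1, g2, g3, g4, g5]
      = (((s ×ˢ s ×ˢ s) ×ˢ (s ×ˢ s ×ˢ s)).filter (fun y => f y.1 = h y.2)).card := by
    rw [F6_eq]
    congr 1
    refine Finset.filter_congr fun y _ => ?_
    show (z y.1.1)⁻¹ * g0 * z y.1.2.1 * g1 * (z y.1.2.2)⁻¹ * g2 * z y.2.1 * g3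
      * (z y.2.2.1)⁻¹ * g4 * z y.2.2.2 * g5 = 1 ↔ f y.1 = h y.2
    rw [hf, hh, ← mul_eq_one_iff_eq_inv]
    simp only [mul_assoc]
  have e1 : F6 s z ![g0, g1, 1, g1⁻¹, g0⁻¹, 1]
      = (((s ×ˢ s ×ˢ s) ×ˢ (s ×ˢ s ×ˢ s)).filter (fun y => f y.1 = f y.2)).card := by
    rw [F6_eq, ← rev2 s (fun p q => f p = f q)]
    congr 1
    refine Finset.filter_congr fun y _ => ?_
    show (z y.1.1)⁻¹ * g0 * z y.1.2.1 * g1 * (z y.1.2.2)⁻¹ * 1 * z y.2.1 * g1⁻¹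
      * (z y.2.2.1)⁻¹ * g0⁻¹ * z y.2.2.2 * 1 = 1 ↔ f y.1 = f (rv y.2)
    rw [← mul_inv_eq_one (a := f y.1), hf, hf]
    show _ ↔ (z y.1.1)⁻¹ * g0 * z y.1.2.1 * g1 * (z y.1.2.2)⁻¹
      * ((z y.2.2.2)⁻¹ * g0 * z y.2.2.1 * g1 * (z y.2.1)⁻¹)⁻¹ = 1
    simp only [mul_assoc, mul_inv_rev, inv_inv, mul_one, one_mul]
  have e2 : F6 s z ![g4⁻¹, g3⁻¹, 1, g3, g4, 1]
      = (((s ×ˢ s ×ˢ s) ×ˢ (s ×ˢ s ×ˢ s)).filter (fun y => h y.1 = h y.2)).card := by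
    rw [F6_eq, ← rev1 s (fun p q => h p = h q)]
    congr 1
    refine Finset.filter_congr fun y _ => ?_
    show (z y.1.1)⁻¹ * g4⁻¹ * z y.1.2.1 * g3⁻¹ * (z y.1.2.2)⁻¹ * 1 * z y.2.1 * g3
      * (z y.2.2.1)⁻¹ * g4 * z y.2.2.2 * 1 = 1 ↔ h (rv y.1) = h y.2
    have k1 : (z y.1.1)⁻¹ * g4⁻¹ * z y.1.2.1 * g3⁻¹ * (z y.1.2.2)⁻¹ * 1 * z y.2.1 * g3
      * (z y.2.2.1)⁻¹ * g4 * z y.2.2.2 * 1
      = (z y.1.2.2 * g3 * (z y.1.2.1)⁻¹ * g4 * z y.1.1)⁻¹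
        * (z y.2.1 * g3 * (z y.2.2.1)⁻¹ * g4 * z y.2.2.2) := by
      simp only [mul_assoc, mul_inv_rev, inv_inv, mul_one, one_mul]
    have k2 : h (rv y.1) = (g2 * (z y.1.2.2 * g3 * (z y.1.2.1)⁻¹ * g4 * z y.1.1) * g5)⁻¹ := by
      rw [hh]
      show (g2 * z y.1.2.2 * g3 * (z y.1.2.1)⁻¹ * g4 * z y.1.1 * g5)⁻¹ = _
      simp only [mul_assoc]
    have k3 : h y.2 = (g2 * (z y.2.1 * g3 * (z y.2.2.1)⁻¹ * g4 * z y.2.2.2) * g5)⁻¹ := by
      rw [hh]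
      simp only [mul_assoc]
    rw [k1, k2, k3, inv_mul_eq_one, inv_inj, mul_left_inj, mul_right_inj]
  rw [e0, e1, e2]
  exact cs _ _ f h

theorem ab1 [Group G] {a b : G} (h : a * b = 1) : b * a = 1 := by
  rw [mul_eq_one_iff_eq_inv] at h
  rw [h, mul_inv_cancel]

theorem F6_sh [Group G] (s : Finset ι) (z : ι → G) (g0 g1 g2 g3 g4 g5 : G) :
    F6 s z ![g0, g1, g2, g3, g4, g5] = F6 s z ![g2, g3, g4, g5, g0, g1] := by
  classical
  unfold F6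
  refine Finset.card_nbij' (fun i k => i (k + 2)) (fun i k => i (k + 4)) ?_ ?_ ?_ ?_
  · intro i hi
    have hi' := Finset.mem_filter.1 (Finset.mem_coe.1 hi)
    rw [Fintype.mem_piFinset] at hi'
    refine Finset.mem_coe.2 (Finset.mem_filter.2 ⟨?_, ?_⟩)
    · rw [Fintype.mem_piFinset]
      exact fun k => hi'.1 (k + 2)
    · have h1 : ((z (i 0))⁻¹ * g0 * z (i 1) * g1) * ((z (i 2))⁻¹ * g2 * z (i 3) * g3
          * (z (i 4))⁻¹ * g4 * z (i 5) * g5) = 1 := by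
        refine Eq.trans ?_ hi'.2
        show _ = (z (i 0))⁻¹ * g0 * z (i 1) * g1 * (z (i 2))⁻¹ * g2 * z (i 3) * g3
          * (z (i 4))⁻¹ * g4 * z (i 5) * g5
        simp only [mul_assoc]
      have h2 := ab1 h1
      show (z (i 2))⁻¹ * g2 * z (i 3) * g3 * (z (i 4))⁻¹ * g4 * z (i 5) * g5
        * (z (i 0))⁻¹ * g0 * z (i 1) * g1 = 1
      rw [← h2]
      simp only [mul_assoc]
  · intro i hi
    have hi' := Finset.mem_filter.1 (Finset.mem_coe.1 hi)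
    rw [Fintype.mem_piFinset] at hi'
    refine Finset.mem_coe.2 (Finset.mem_filter.2 ⟨?_, ?_⟩)
    · rw [Fintype.mem_piFinset]
      exact fun k => hi'.1 (k + 4)
    · have h1 : ((z (i 0))⁻¹ * g2 * z (i 1) * g3 * (z (i 2))⁻¹ * g4 * z (i 3) * g5)
          * ((z (i 4))⁻¹ * g0 * z (i 5) * g1) = 1 := by
        refine Eq.trans ?_ hi'.2
        show _ = (z (i 0))⁻¹ * g2 * z (i 1) * g3 * (z (i 2))⁻¹ * g4 * z (i 3) * g5
          * (z (i 4))⁻¹ * g0 * z (i 5) * g1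
        simp only [mul_assoc]
      have h2 := ab1 h1
      show (z (i 4))⁻¹ * g0 * z (i 5) * g1 * (z (i 0))⁻¹ * g2 * z (i 1) * g3
        * (z (i 2))⁻¹ * g4 * z (i 3) * g5 = 1
      rw [← h2]
      simp only [mul_assoc]
  · intro i _
    funext k
    fin_cases k <;> rfl
  · intro i _
    funext k
    fin_cases k <;> rfl

theorem F6_le [Group G] (s : Finset ι) (z : ι → G) (g : Fin 6 → G) :
    F6 s z g ≤ F6 s z (fun _ => 1) := by
  classical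
  have hb : BddAbove (Set.range (F6 s z)) := by
    refine ⟨(Fintype.piFinset fun _ : Fin 6 => s).card, ?_⟩
    rintro _ ⟨g, rfl⟩
    exact Finset.card_filter_le _ _
  obtain ⟨g₀, hg₀⟩ := Nat.sSup_mem (Set.range_nonempty (F6 s z)) hb
  have hM : ∀ g, F6 s z g ≤ F6 s z g₀ := by
    intro g
    rw [hg₀]
    exact le_csSup hb ⟨g, rfl⟩
  refine (hM g).trans ?_
  have hv : ∀ g : Fin 6 → G, g = ![g 0, g 1, g 2, g 3, g 4, g 5] := by
    intro g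
    funext k
    fin_cases k <;> rfl
  rcases Nat.eq_zero_or_pos (F6 s z g₀) with h0 | hpos
  · rw [h0]
    exact Nat.zero_le _
  have key : ∀ a b : ℕ, b ≤ F6 s z g₀ → F6 s z g₀ ^ 2 ≤ a * b → F6 s z g₀ ≤ a := by
    intro a b hb h
    have h1 : F6 s z g₀ * F6 s z g₀ ≤ a * F6 s z g₀ := by
      rw [← sq]
      exact h.trans (Nat.mul_le_mul_left a hb)
    exact Nat.le_of_mul_le_mul_right h1 hpos
  have s1 : F6 s z g₀ ≤ F6 s z ![g₀ 0, g₀ 1, 1, (g₀ 1)⁻¹, (g₀ 0)⁻¹, 1] := by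
    have h1 := F6_cs s z (g₀ 0) (g₀ 1) (g₀ 2) (g₀ 3) (g₀ 4) (g₀ 5)
    rw [← hv g₀] at h1
    exact key _ _ (hM _) h1
  generalize hx : g₀ 0 = x at s1
  generalize hy : g₀ 1 = y at s1
  have s2 : F6 s z g₀ ≤ F6 s z ![x⁻¹, 1, 1, 1⁻¹, x⁻¹⁻¹, 1] := by
    have h1 := F6_cs s z x⁻¹ 1 x y 1 y⁻¹
    rw [F6_sh, F6_sh, ] at s1
    exact key _ _ (hM _) ((Nat.pow_le_pow_left s1 2).trans h1)
  have s3 : F6 s z g₀ ≤ F6 s z ![1, 1, 1, 1⁻¹, 1⁻¹, 1] := by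
    have h1 := F6_cs s z 1 1⁻¹ x⁻¹⁻¹ 1 x⁻¹ 1
    rw [F6_sh] at s2
    have h2 := key _ _ (hM _) ((Nat.pow_le_pow_left s2 2).trans h1)
    simpa using h2
  refine s3.trans (le_of_eq ?_)
  congr 1
  funext k
  fin_cases k <;> simp

end Pool.Agent.Helper42.HY
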