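import Pool.Agent.Helper77.HY.St

set_option autoImplicit false

/-!
# Project HY, module LC (list colouring of sparse bipartite graphs)
-/

namespace Pool.Agent.Helper42.HY.LC

open Pool.Agent.Helper35.PM Pool.Agent.Helper77.HY

theorem main (hBbs : StBbs) (hOri : StOri) : StLc := by
  classical
  intro V _ G R p w hp hE L hL
  have hw : ∀ u ∈ R, w u ≤ 2 := by
    intro u hu
    have := hE {u} (Finset.singleton_subset_iff.mpr hu)
    rw [Finset.sum_singleton, Finset.card_singleton] at this
    omega
  obtain ⟨O, h1, h2, h3⟩ := hOri V G R (fun u => 2 - w u) (by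
    intro U hU
    have h := hE U hU
    have hsum : ∑ v ∈ U, (2 - w v) + ∑ v ∈ U, w v = 2 * U.card := by
      rw [← Finset.sum_add_distrib]
      rw [Finset.sum_congr rfl (fun v hv => Nat.sub_add_cancel (hw v (hU hv)))]
      rw [Finset.sum_const, smul_eq_mul, Nat.mul_comm]
    omega)
  refine hBbs V G R p O hp (fun u _ v hv => h1 u v hv) h2 L ?_
  intro u hu
  have h4 := h3 u hu
  have h5 : (O u ∩ R).card ≤ (O u).card := Finset.card_le_card Finset.inter_subset_left
  have h6 := hL u hu
  have h7 := hw u hu
  omega

end Pool.Agent.Helper42.HY.LC
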