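import Pool.Agent.Helper77.HY.St

set_option autoImplicit false

/-!
# Project HY, module ORI (Hakimi orientations from the theorem of Hall)
-/

namespace Pool.Agent.Helper42.HY.ORI

open Pool.Agent.Helper35.PM Pool.Agent.Helper77.HY

theorem main : StOri := by
  classical
  intro V _ _ G R cap hE
  have : Fintype V := Fintype.ofFinite V
  -- the edges inside R
  let ES : Finset (Sym2 V) := Finset.univ.filter (fun e => e ∈ G.edgeSet ∧ ∀ v ∈ e, v ∈ R)
  -- slots of an edge
  let slots : ES → Finset (V × ℕ) := fun e =>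
    (Finset.univ.filter (fun v : V => v ∈ e.1)).biUnion
      (fun v => (Finset.range (cap v)).image (fun i => (v, i)))
  have hmem : ∀ (e : ES) (x : V × ℕ), x ∈ slots e ↔ x.1 ∈ e.1 ∧ x.2 < cap x.1 := by
    intro e x
    simp only [slots, Finset.mem_biUnion, Finset.mem_filter, Finset.mem_univ, true_and,
      Finset.mem_image, Finset.mem_range]
    constructor
    · rintro ⟨v, hv, i, hi, rfl⟩
      exact ⟨hv, hi⟩
    · rintro ⟨h1, h2⟩
      exact ⟨x.1, h1, x.2, h2, rfl⟩
  have hall : ∀ s : Finset ES, s.card ≤ (s.biUnion slots).card := by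
    intro s
    let U : Finset V := Finset.univ.filter (fun v => ∃ e ∈ s, v ∈ e.1)
    have hUR : U ⊆ R := by
      intro v hv
      obtain ⟨e, he, hve⟩ := (Finset.mem_filter.mp hv).2
      exact (Finset.mem_filter.mp e.2).2.2 v hve
    have h1 : s.card ≤ eN G U := by
      unfold eN
      rw [← Finset.card_image_of_injective s Subtype.val_injective, ← Set.ncard_coe_finset]
      apply Set.ncard_le_ncard _ (Set.toFinite _)
      intro e he
      obtain ⟨e', he', rfl⟩ := Finset.mem_image.mp (Finset.mem_coe.mp he)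
      exact ⟨(Finset.mem_filter.mp e'.2).2.1, fun v hv =>
        Finset.mem_filter.mpr ⟨Finset.mem_univ _, e', he', hv⟩⟩
    have h2 : s.biUnion slots = U.biUnion (fun v => (Finset.range (cap v)).image (fun i => (v, i))) := by
      ext x
      rw [Finset.mem_biUnion, Finset.mem_biUnion]
      constructor
      · rintro ⟨e, he, hx⟩
        obtain ⟨h3, h4⟩ := (hmem e x).mp hx
        refine ⟨x.1, Finset.mem_filter.mpr ⟨Finset.mem_univ _, e, he, h3⟩, ?_⟩
        exact Finset.mem_image.mpr ⟨x.2, Finset.mem_range.mpr h4, rfl⟩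
      · rintro ⟨v, hv, hx⟩
        obtain ⟨i, hi, rfl⟩ := Finset.mem_image.mp hx
        obtain ⟨e, he, hve⟩ := (Finset.mem_filter.mp hv).2
        exact ⟨e, he, (hmem e (v, i)).mpr ⟨hve, Finset.mem_range.mp hi⟩⟩
    have h3 : (s.biUnion slots).card = ∑ v ∈ U, cap v := by
      rw [h2, Finset.card_biUnion]
      · apply Finset.sum_congr rfl
        intro v _
        rw [Finset.card_image_of_injective _ (fun i j h => (Prod.mk.inj h).2), Finset.card_range]
      · intro v _ v' _ hne
        rw [Function.onFun, Finset.disjoint_left]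
        intro x hx hx'
        obtain ⟨i, _, rfl⟩ := Finset.mem_image.mp hx
        obtain ⟨j, _, h⟩ := Finset.mem_image.mp hx'
        exact hne (Prod.mk.inj h).1.symm
    rw [h3]
    exact h1.trans (hE U hUR)
  obtain ⟨f, hf, hfs⟩ := (Finset.all_card_le_biUnion_card_iff_exists_injective slots).mp hall
  have hES : ∀ u ∈ R, ∀ v ∈ R, G.Adj u v → s(u, v) ∈ ES := by
    intro u hu v hv h
    refine Finset.mem_filter.mpr ⟨Finset.mem_univ _, h, ?_⟩
    intro x hx
    rcases Sym2.mem_iff.mp hx with rfl | rfl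
    · exact hu
    · exact hv
  refine ⟨fun u => Finset.univ.filter (fun v => G.Adj u v ∧
    ∃ h : s(u, v) ∈ ES, (f ⟨s(u, v), h⟩).1 = u), ?_, ?_, ?_⟩
  · intro u v hv
    exact (Finset.mem_filter.mp hv).2.1
  · intro u hu v hv h
    have he := hES u hu v hv h
    have h1 := ((hmem ⟨s(u, v), he⟩ _).mp (hfs ⟨s(u, v), he⟩)).1
    rcases Sym2.mem_iff.mp h1 with h2 | h2
    · exact Or.inl (Finset.mem_filter.mpr ⟨Finset.mem_univ _, h, he, h2⟩)
    · right
      have he' : s(v, u) ∈ ES := by rw [Sym2.eq_swap]; exact he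
      refine Finset.mem_filter.mpr ⟨Finset.mem_univ _, h.symm, he', ?_⟩
      have : (⟨s(v, u), he'⟩ : ES) = ⟨s(u, v), he⟩ := Subtype.ext Sym2.eq_swap
      rw [this]
      exact h2
  · intro u _
    set O := Finset.univ.filter (fun v => G.Adj u v ∧
      ∃ h : s(u, v) ∈ ES, (f ⟨s(u, v), h⟩).1 = u) with hO
    have hex : ∀ v ∈ O, ∃ h : s(u, v) ∈ ES, (f ⟨s(u, v), h⟩).1 = u :=
      fun v hv => (Finset.mem_filter.mp hv).2.2
    let g : V → ℕ := fun v => if h : s(u, v) ∈ ES then (f ⟨s(u, v), h⟩).2 else 0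
    have hmaps : ∀ v ∈ O, g v ∈ Finset.range (cap u) := by
      intro v hv
      obtain ⟨h, h1⟩ := hex v hv
      have h2 := ((hmem ⟨s(u, v), h⟩ _).mp (hfs ⟨s(u, v), h⟩)).2
      rw [h1] at h2
      simp only [g, dif_pos h]
      exact Finset.mem_range.mpr h2
    have hinj : ∀ v ∈ O, ∀ v' ∈ O, g v = g v' → v = v' := by
      intro v hv v' hv' hg
      obtain ⟨h, h1⟩ := hex v hv
      obtain ⟨h', h1'⟩ := hex v' hv'
      simp only [g, dif_pos h, dif_pos h'] at hg
      have : f ⟨s(u, v), h⟩ = f ⟨s(u, v'), h'⟩ := Prod.ext (h1.trans h1'.symm) hg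
      have h2 := congrArg Subtype.val (hf this)
      simp only at h2
      rcases Sym2.eq_iff.mp h2 with ⟨_, h3⟩ | ⟨h3, h4⟩
      · exact h3
      · rw [h4, ← h3]
    calc O.card ≤ (Finset.range (cap u)).card :=
          Finset.card_le_card_of_injOn g hmaps (fun v hv v' hv' => hinj v hv v' hv')
      _ = cap u := Finset.card_range _

end Pool.Agent.Helper42.HY.ORI
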